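import Pool.Agent.W328.Triv

/-!
# Every `C¹` action of the Thompson–Stein group `T(2,3)` on the circle is trivial
-/

set_option autoImplicit false

open Filter Topology Set

open scoped Manifold ContDiff

namespace Pool.Agent.Results.MP_9d59aa_al.C1Trivial

open Pool.Agent.W328

/-- The group of slopes `⟨2,3⟩ = {2^a 3^b : a, b ∈ ℤ}`. -/
def Slopes : Set ℝ := {s | ∃ a b : ℤ, s = (2:ℝ)^a * (3:ℝ)^b}

/-- The set `ℤ[1/6]/ℤ` of points of the circle `ℝ/ℤ`. -/
def Z6 : Set UnitAddCircle :=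
  {p | ∃ (m : ℤ) (k : ℕ), p = (((m:ℝ) / 6^k : ℝ) : UnitAddCircle)}

/-- A homeomorphism `f` of `ℝ/ℤ` is an element of the Thompson–Stein group `T(2,3)` if there is a
finite set `B ⊆ ℤ[1/6]/ℤ` such that `f` is affine with slope in `⟨2,3⟩` near every point outside
`B`, and `f` maps `ℤ[1/6]/ℤ` onto itself. -/
def IsStein (f : UnitAddCircle ≃ₜ UnitAddCircle) : Prop :=
  (∃ B : Finset UnitAddCircle, (∀ b ∈ B, b ∈ Z6) ∧ ∀ p, p ∉ B → ∃ s ∈ Slopes,
    ∀ᶠ t : ℝ in 𝓝 0, f (p + (t : UnitAddCircle)) = f p + ((s * t : ℝ) : UnitAddCircle)) ∧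
  f '' Z6 = Z6

/-- The Thompson–Stein group `T(2,3)`. -/
def T23 : Subgroup (UnitAddCircle ≃ₜ UnitAddCircle) where
  carrier := {f | IsStein f}
  one_mem' := by
    refine ⟨⟨∅, by simp, fun p _ => ⟨1, ⟨0, 0, by simp⟩, ?_⟩⟩, ?_⟩
    · refine Eventually.of_forall fun t => ?_
      rw [one_mul]; rfl
    · show (fun x => x) '' Z6 = Z6
      exact image_id' _
  mul_mem' := by
    classical
    rintro f g ⟨⟨Bf, hf1, hf2⟩, hf3⟩ ⟨⟨Bg, hg1, hg2⟩, hg3⟩
    refine ⟨⟨Bg ∪ Bf.image g.symm, ?_, ?_⟩, ?_⟩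
    · intro b hb
      rcases Finset.mem_union.1 hb with hb | hb
      · exact hg1 b hb
      · obtain ⟨c, hc, rfl⟩ := Finset.mem_image.1 hb
        have h1 := hf1 c hc
        rw [← hg3] at h1
        obtain ⟨x, hx, rfl⟩ := h1
        rwa [g.symm_apply_apply]
    · intro p hp
      rw [Finset.mem_union, not_or] at hp
      obtain ⟨s, ⟨a, b, hs⟩, h1⟩ := hg2 p hp.1
      have hgp : g p ∉ Bf := fun h => hp.2 (Finset.mem_image.2 ⟨g p, h, g.symm_apply_apply p⟩)
      obtain ⟨s', ⟨a', b', hs'⟩, h2⟩ := hf2 (g p) hgp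
      refine ⟨s' * s, ⟨a' + a, b' + b, ?_⟩, ?_⟩
      · rw [hs, hs', zpow_add₀ (by norm_num), zpow_add₀ (by norm_num)]; ring
      · have ht : Tendsto (fun t : ℝ => s * t) (𝓝 0) (𝓝 0) := by
          have : Continuous (fun t : ℝ => s * t) := by fun_prop
          have h3 := this.tendsto 0
          rwa [mul_zero] at h3
        filter_upwards [h1, ht.eventually h2] with t h3 h4
        show f (g (p + (t : UnitAddCircle))) = f (g p) + _
        rw [h3, h4, mul_assoc]
    · show (fun x => f (g x)) '' Z6 = Z6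
      rw [← image_image, hg3, hf3]
  inv_mem' := by
    classical
    rintro f ⟨⟨B, h1, h2⟩, h3⟩
    refine ⟨⟨B.image f, ?_, ?_⟩, ?_⟩
    · intro b hb
      obtain ⟨c, hc, rfl⟩ := Finset.mem_image.1 hb
      rw [← h3]
      exact mem_image_of_mem _ (h1 c hc)
    · intro p hp
      have hp' : f.symm p ∉ B := fun h => hp (Finset.mem_image.2 ⟨f.symm p, h, f.apply_symm_apply p⟩)
      obtain ⟨s, ⟨a, b, hs⟩, h4⟩ := h2 _ hp'
      have hs0 : 0 < s := by rw [hs]; positivity
      refine ⟨s⁻¹, ⟨-a, -b, ?_⟩, ?_⟩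
      · rw [hs, zpow_neg, zpow_neg, mul_inv]
      · have ht : Tendsto (fun t : ℝ => s⁻¹ * t) (𝓝 0) (𝓝 0) := by
          have : Continuous (fun t : ℝ => s⁻¹ * t) := by fun_prop
          have h3 := this.tendsto 0
          rwa [mul_zero] at h3
        filter_upwards [ht.eventually h4] with t h5
        show f.symm (p + (t : UnitAddCircle)) = f.symm p + _
        rw [f.symm_apply_eq, h5, f.apply_symm_apply, mul_inv_cancel_left₀ hs0.ne']
    · show f.symm '' Z6 = Z6
      conv_lhs => rw [← h3]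
      rw [image_image]
      simp

/-- The group of `C¹` diffeomorphisms of the circle. -/
def Diff1 : Subgroup (Circle ≃ₜ Circle) where
  carrier := {f | ContMDiff (𝓡 1) (𝓡 1) 1 f ∧ ContMDiff (𝓡 1) (𝓡 1) 1 f.symm}
  one_mem' := ⟨contMDiff_id, contMDiff_id⟩
  mul_mem' := by
    rintro f g ⟨h1, h2⟩ ⟨h3, h4⟩
    exact ⟨h1.comp h3, h4.comp h2⟩
  inv_mem' := by
    rintro f ⟨h1, h2⟩
    exact ⟨h2, h1⟩

theorem coe_eq {x y : ℝ} : (x : UnitAddCircle) = y ↔ ∃ m : ℤ, x = y + m := by
  rw [← sub_eq_zero, ← AddCircle.coe_sub, AddCircle.coe_eq_zero_iff]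
  constructor
  · rintro ⟨n, hn⟩
    refine ⟨n, ?_⟩
    rw [zsmul_eq_mul, mul_one] at hn
    linarith
  · rintro ⟨n, rfl⟩
    exact ⟨n, by rw [zsmul_eq_mul, mul_one]; ring⟩

theorem coe_eq_E {x y : ℝ} : (x : UnitAddCircle) = y ↔ E x = E y := by rw [coe_eq, E_eq]

theorem coe_surj (p : UnitAddCircle) : ∃ x : ℝ, (x : UnitAddCircle) = p :=
  QuotientAddGroup.mk_surjective p

theorem coe_mem {x : ℝ} : (x : UnitAddCircle) ∈ Z6 ↔ x ∈ ZA := by
  constructor
  · rintro ⟨m, k, h⟩
    obtain ⟨n, rfl⟩ := coe_eq.1 h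
    exact zadd ⟨m, k, rfl⟩ (zint n)
  · rintro ⟨m, k, rfl⟩
    exact ⟨m, k, rfl⟩

/-- Descent. -/
theorem exists_desc {g : P} (hg : g ∈ TT) :
    ∃ f : UnitAddCircle ≃ₜ UnitAddCircle, (∀ x : ℝ, f x = ((g x : ℝ) : UnitAddCircle)) ∧
      IsStein f := by
  have key : ∀ g : P, g ∈ TT → ∃ f : UnitAddCircle → UnitAddCircle, Continuous f ∧
      ∀ x : ℝ, f x = ((g x : ℝ) : UnitAddCircle) := by
    intro g hg
    have hp : Function.Periodic (fun x : ℝ => ((g x : ℝ) : UnitAddCircle)) 1 := by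
      intro x
      show ((g (x + 1) : ℝ) : UnitAddCircle) = ((g x : ℝ) : UnitAddCircle)
      rw [mem_TT.1 hg, coe_eq]
      exact ⟨1, by simp⟩
    refine ⟨hp.lift, ?_, fun x => hp.lift_coe x⟩
    have h1 : Continuous (fun x : ℝ => ((g x : ℝ) : UnitAddCircle)) :=
      (AddCircle.continuous_mk' 1).comp (g : ℝ ≃o ℝ).continuous
    exact continuous_quot_lift _ h1
  obtain ⟨f, hf, hfg⟩ := key g hg
  obtain ⟨f', hf', hfg'⟩ := key g⁻¹ (TT.inv_mem hg)
  let F : UnitAddCircle ≃ₜ UnitAddCircle :=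
    { toFun := f
      invFun := f'
      left_inv := by
        intro p
        obtain ⟨x, rfl⟩ := coe_surj p
        rw [hfg, hfg', P_inv_self]
      right_inv := by
        intro p
        obtain ⟨x, rfl⟩ := coe_surj p
        rw [hfg', hfg, P_self_inv]
      continuous_toFun := hf
      continuous_invFun := hf' }
  have hF : ∀ x : ℝ, F x = ((g x : ℝ) : UnitAddCircle) := hfg
  refine ⟨F, hF, ?_, ?_⟩
  · classical
    obtain ⟨k, hk⟩ := exists_adic g 0 1
    have h6 : (0:ℝ) < 6 ^ k := by positivity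
    refine ⟨(Finset.range (6 ^ k)).image (fun j : ℕ => (((j:ℝ) / 6 ^ k : ℝ) : UnitAddCircle)),
      ?_, ?_⟩
    · intro b hb
      obtain ⟨j, -, rfl⟩ := Finset.mem_image.1 hb
      exact ⟨j, k, by push_cast; rfl⟩
    · intro p hp
      obtain ⟨x, hx0, hx1, rfl⟩ : ∃ x : ℝ, 0 ≤ x ∧ x < 1 ∧ (x : UnitAddCircle) = p := by
        obtain ⟨x, rfl⟩ := coe_surj p
        refine ⟨Int.fract x, Int.fract_nonneg x, Int.fract_lt_one x, ?_⟩
        rw [coe_eq]
        exact ⟨-⌊x⌋, by rw [Int.fract]; push_cast; ring⟩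
      let j : ℕ := ⌊x * 6 ^ k⌋₊
      have hj1 : (j:ℝ) ≤ x * 6 ^ k := Nat.floor_le (by positivity)
      have hj2 : x * 6 ^ k < j + 1 := Nat.lt_floor_add_one _
      have hjk : j < 6 ^ k := by
        have : (j:ℝ) < 6 ^ k := by nlinarith
        exact_mod_cast this
      have hl : (j:ℝ) / 6 ^ k ≤ x := by rw [div_le_iff₀ h6]; exact hj1
      have hr : x < (j + 1) / 6 ^ k := by rw [lt_div_iff₀ h6]; exact hj2
      have hne : (j:ℝ) / 6 ^ k ≠ x := by
        intro h
        exact hp (Finset.mem_image.2 ⟨j, Finset.mem_range.2 hjk, by rw [h]⟩)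
      have hl' := lt_of_le_of_ne hl hne
      obtain ⟨s, hs, h⟩ := hk j (by push_cast; positivity) (by push_cast; linarith)
      push_cast at h
      refine ⟨s, hs, ?_⟩
      have ht : Tendsto (fun t : ℝ => x + t) (𝓝 0) (𝓝 x) := by
        have : Continuous (fun t : ℝ => x + t) := by fun_prop
        have h3 := this.tendsto 0
        rwa [add_zero] at h3
      filter_upwards [ht.eventually (Ioo_mem_nhds hl' hr)] with t h4
      rw [← AddCircle.coe_add, hF, hF, ← AddCircle.coe_add, h _ h4.1.le h4.2.le, h x hl hr.le]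
      congr 1; ring
  · apply Subset.antisymm
    · rintro _ ⟨p, hp, rfl⟩
      obtain ⟨x, rfl⟩ := coe_surj p
      rw [hF, coe_mem, P_mem g, ← coe_mem]
      exact hp
    · intro p hp
      obtain ⟨x, rfl⟩ := coe_surj p
      refine ⟨((g⁻¹ x : ℝ) : UnitAddCircle), ?_, ?_⟩
      · rw [coe_mem, P_mem g⁻¹, ← coe_mem]
        exact hp
      · rw [hF, P_self_inv]

/-- Continuous lifts of continuous maps. -/
theorem exists_clift {f : UnitAddCircle → UnitAddCircle} (hf : Continuous f) :
    ∃ F : ℝ → ℝ, Continuous F ∧ ∀ x : ℝ, ((F x : ℝ) : UnitAddCircle) = f x := by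
  obtain ⟨y, hy⟩ := coe_surj (f ((0:ℝ) : UnitAddCircle))
  obtain ⟨F, ⟨-, hF⟩, -⟩ := (AddCircle.isCoveringMap_coe (1:ℝ)).existsUnique_continuousMap_lifts
    (⟨fun x : ℝ => f x, hf.comp (AddCircle.continuous_mk' 1)⟩ : C(ℝ, UnitAddCircle)) 0 y hy
  exact ⟨F, F.continuous, fun x => congrFun hF x⟩

theorem clift_unique {F H : ℝ → ℝ} (hF : Continuous F) (hH : Continuous H)
    (h : ∀ x, ((F x : ℝ) : UnitAddCircle) = ((H x : ℝ) : UnitAddCircle)) :
    ∃ m : ℤ, ∀ x, F x = H x + m :=
  lift_unique hF hH fun x => coe_eq_E.1 (h x)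

/-- A locally affine function on an interval is affine. -/
theorem affine_of_local {F : ℝ → ℝ} {a b : ℝ} (hab : a < b)
    (h : ∀ x ∈ Ioo a b, ∃ s ∈ Lam, ∃ c ∈ ZA, ∀ᶠ y in 𝓝 x, F y = s * y + c) :
    ∃ s ∈ Lam, ∃ c ∈ ZA, ∀ y ∈ Ioo a b, F y = s * y + c := by
  have hd : ∀ x ∈ Ioo a b, ∃ s : ℝ, ∀ᶠ y in 𝓝 x, HasDerivAt F s y := by
    intro x hx
    obtain ⟨s, -, c, -, h1⟩ := h x hx
    refine ⟨s, ?_⟩
    filter_upwards [h1.eventually_nhds] with y h2
    have h3 : HasDerivAt (fun y => s * y + c) s y := by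
      simpa using ((hasDerivAt_id y).const_mul s).add_const c
    exact h3.congr_of_eventuallyEq h2
  have hx0 : (a + b) / 2 ∈ Ioo a b := ⟨by linarith, by linarith⟩
  obtain ⟨s, hs, c, hc, h1⟩ := h _ hx0
  -- the derivative is constant
  have hconst : ∀ y ∈ Ioo a b, deriv F y = s := by
    have e1 : DifferentiableOn ℝ (deriv F) (Ioo a b) := by
      intro x hx
      obtain ⟨t, ht⟩ := hd x hx
      have : deriv F =ᶠ[𝓝 x] fun _ => t := by
        filter_upwards [ht] with y hy using hy.deriv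
      exact (this.differentiableAt_iff.2 (differentiableAt_const _)).differentiableWithinAt
    have e2 : EqOn (deriv (deriv F)) 0 (Ioo a b) := by
      intro x hx
      obtain ⟨t, ht⟩ := hd x hx
      have : deriv F =ᶠ[𝓝 x] fun _ => t := by
        filter_upwards [ht] with y hy using hy.deriv
      rw [this.deriv_eq]; simp
    intro y hy
    rw [isOpen_Ioo.is_const_of_deriv_eq_zero isPreconnected_Ioo e1 e2 hy hx0]
    have h3 : HasDerivAt (fun y => s * y + c) s ((a + b) / 2) := by
      simpa using ((hasDerivAt_id ((a + b) / 2)).const_mul s).add_const c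
    exact (h3.congr_of_eventuallyEq h1).deriv
  refine ⟨s, hs, c, hc, fun y hy => ?_⟩
  have hdiff : ∀ x ∈ Ioo a b, HasDerivAt (fun y => F y - (s * y + c)) 0 x := by
    intro x hx
    obtain ⟨t, ht⟩ := hd x hx
    have e1 : HasDerivAt F s x := by
      have := ht.self_of_nhds
      rwa [← this.deriv, hconst x hx] at this
    have h3 : HasDerivAt (fun y => s * y + c) s x := by
      simpa using ((hasDerivAt_id x).const_mul s).add_const c
    exact (e1.sub h3).congr_deriv (sub_self s)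
  have h4 := isOpen_Ioo.is_const_of_deriv_eq_zero isPreconnected_Ioo
    (fun x hx => (hdiff x hx).differentiableAt.differentiableWithinAt)
    (fun x hx => (hdiff x hx).deriv) hy hx0
  have h5 := h1.self_of_nhds
  simp only [h5, sub_self] at h4
  linarith

/-- Ascent. -/
theorem exists_asc {f : UnitAddCircle ≃ₜ UnitAddCircle} (hf : IsStein f) :
    ∃ g : P, g ∈ TT ∧ ∀ x : ℝ, f x = ((g x : ℝ) : UnitAddCircle) := by
  obtain ⟨⟨B, hB1, hB2⟩, hf3⟩ := hf
  obtain ⟨F, hF, hFl⟩ := exists_clift f.continuous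
  obtain ⟨H, hH, hHl⟩ := exists_clift f.symm.continuous
  obtain ⟨m, hm⟩ := clift_unique (F := fun x => H (F x)) (H := fun x => x)
    (hH.comp hF) continuous_id (fun x => by rw [hHl, hFl, f.symm_apply_apply])
  obtain ⟨m', hm'⟩ := clift_unique (F := fun x => F (H x)) (H := fun x => x)
    (hF.comp hH) continuous_id (fun x => by rw [hFl, hHl, f.apply_symm_apply])
  have hone : ∀ x : ℝ, ((x + 1 : ℝ) : UnitAddCircle) = x := fun x => coe_eq.2 ⟨1, by simp⟩
  obtain ⟨d, hd⟩ := clift_unique (F := fun x => F (x + 1)) (H := F)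
    (hF.comp (by fun_prop)) hF (fun x => by rw [hFl, hFl, hone])
  obtain ⟨e, he⟩ := clift_unique (F := fun x => H (x + 1)) (H := H)
    (hH.comp (by fun_prop)) hH (fun x => by rw [hHl, hHl, hone])
  have hinj : Function.Injective F := by
    intro x y hxy
    have h1 := hm x
    have h2 := hm y
    simp only [hxy] at h1
    linarith
  have hsurj : Function.Surjective F := by
    intro y
    refine ⟨H (y - m'), ?_⟩
    have := hm' (y - m')
    rw [this]; ring
  have hHint : ∀ (n : ℤ) (x : ℝ), H (x + n) = H x + n * e := by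
    have hn : ∀ n : ℕ, ∀ x : ℝ, H (x + n) = H x + n * e := by
      intro n
      induction n with
      | zero => intro x; simp
      | succ n ih =>
        intro x
        have := he (x + n)
        push_cast
        rw [← add_assoc]
        rw [this, ih]; ring
    intro n x
    obtain ⟨k, rfl | rfl⟩ := n.eq_nat_or_neg
    · exact_mod_cast hn k x
    · have := hn k (x + ((-k : ℤ) : ℝ))
      push_cast at this ⊢
      rw [neg_add_cancel_right] at this
      linarith
  have hde : d * e = 1 := by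
    have h1 := hm 1
    have h2 := hm 0
    have h3 := hd 0
    rw [zero_add] at h3
    rw [h3, hHint, h2] at h1
    have : (d:ℝ) * e = 1 := by linarith
    exact_mod_cast this
  have hZA : ∀ x : ℝ, x ∈ ZA → F x ∈ ZA := by
    intro x hx
    rw [← coe_mem, hFl, ← hf3]
    exact mem_image_of_mem _ (coe_mem.2 hx)
  -- local form outside `B`
  have hloc : ∀ x : ℝ, (x : UnitAddCircle) ∉ B →
      ∃ s ∈ Lam, ∃ c ∈ ZA, ∀ᶠ y in 𝓝 x, F y = s * y + c := by
    intro x hx
    obtain ⟨s, hs, h⟩ := hB2 _ hx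
    have h1 : ∀ᶠ t in 𝓝 (0:ℝ), F (x + t) = F x + s * t := by
      have hc : Tendsto (fun t : ℝ => F (x + t) - F x - s * t) (𝓝 0) (𝓝 0) := by
        have : Continuous (fun t : ℝ => F (x + t) - F x - s * t) := by fun_prop
        have h3 := this.tendsto 0
        simpa using h3
      have hsm : ∀ᶠ t in 𝓝 (0:ℝ), |F (x + t) - F x - s * t| < 1 := by
        have := hc.eventually (Metric.ball_mem_nhds (0:ℝ) one_pos)
        filter_upwards [this] with t ht
        rw [Real.dist_eq, sub_zero] at ht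
        exact ht
      filter_upwards [h, hsm] with t h2 h3
      rw [← AddCircle.coe_add, ← hFl, ← hFl, ← AddCircle.coe_add] at h2
      obtain ⟨n, hn⟩ := coe_eq.1 h2
      have h4 : F (x + t) - F x - s * t = n := by rw [hn]; ring
      rw [h4] at h3
      have h5 : |n| < 1 := by exact_mod_cast h3
      rw [Int.abs_lt_one_iff] at h5
      rw [hn, h5]; simp
    have h2 : ∀ᶠ y in 𝓝 x, F y = s * y + (F x - s * x) := by
      have ht : Tendsto (fun y : ℝ => y - x) (𝓝 x) (𝓝 0) := by
        have : Continuous (fun y : ℝ => y - x) := by fun_prop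
        have h3 := this.tendsto x
        rwa [sub_self] at h3
      filter_upwards [ht.eventually h1] with y h3
      rw [add_sub_cancel] at h3
      rw [h3]; ring
    refine ⟨s, hs, F x - s * x, ?_, h2⟩
    obtain ⟨δ, hδ, h3⟩ := Metric.eventually_nhds_iff.1 h2
    obtain ⟨y, hy, hy1, hy2⟩ := z_between (show x < x + δ by linarith)
    have h4 := h3 (y := y) (by rw [Real.dist_eq, abs_lt]; constructor <;> linarith)
    have h5 : F x - s * x = F y - s * y := by rw [h4]; ring
    rw [h5]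
    exact zsub (hZA y hy) (zlmul hs hy)
  -- orientation
  have hmono : StrictMono F := by
    rcases hF.strictMono_of_inj hinj with hm | hm
    · exact hm
    · exfalso
      have hx : ((√2 : ℝ) : UnitAddCircle) ∉ B := by
        intro h
        obtain ⟨a, k, h1⟩ := coe_mem.1 (hB1 _ h)
        exact irrational_sqrt_two ⟨(a:ℚ) / 6 ^ k, by rw [h1]; push_cast; rfl⟩
      obtain ⟨s, hs, c, hc, h1⟩ := hloc _ hx
      obtain ⟨δ, hδ, h3⟩ := Metric.eventually_nhds_iff.1 h1
      have h4 := h3 (y := √2 + δ / 2) (by rw [Real.dist_eq, abs_lt]; constructor <;> linarith)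
      have h5 := h1.self_of_nhds
      have h6 := hm (show √2 < √2 + δ / 2 by linarith)
      rw [h4, h5] at h6
      have := lpos hs
      nlinarith
  have hadd : ∀ x, F (x + 1) = F x + 1 := by
    rcases Int.eq_one_or_neg_one_of_mul_eq_one hde with h | h
    · intro x
      have := hd x
      rw [h] at this
      simpa using this
    · exfalso
      have h1 := hd 0
      have h2 := hmono (show (0:ℝ) < 0 + 1 by norm_num)
      rw [h] at h1
      push_cast at h1
      linarith
  -- one sided neighbourhoods free of `B`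
  have hfree : ∀ x : ℝ, ∃ δ > 0, ∀ y : ℝ, y ≠ x → |y - x| < δ → (y : UnitAddCircle) ∉ B := by
    classical
    intro x
    have hopen : IsOpen ((fun y : ℝ => (y : UnitAddCircle)) ⁻¹'
        ((B.erase (x : UnitAddCircle) : Finset UnitAddCircle) : Set UnitAddCircle)ᶜ) :=
      (Finset.finite_toSet _).isClosed.isOpen_compl.preimage (AddCircle.continuous_mk' 1)
    obtain ⟨δ, hδ, h⟩ := Metric.isOpen_iff.1 hopen x (by simp)
    refine ⟨min δ 1, by positivity, fun y hy hyx hyB => ?_⟩
    have h1 := h (show y ∈ Metric.ball x δ by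
      rw [Metric.mem_ball, Real.dist_eq]; exact hyx.trans_le (min_le_left _ _))
    refine h1 (Finset.mem_coe.2 (Finset.mem_erase.2 ⟨fun h2 => hy ?_, hyB⟩))
    obtain ⟨n, hn⟩ := coe_eq.1 h2
    have h3 : y - x = n := by rw [hn]; ring
    have h4 := hyx.trans_le (min_le_right _ _)
    rw [h3] at h4
    have h5 : |n| < 1 := by exact_mod_cast h4
    rw [Int.abs_lt_one_iff] at h5
    rw [hn, h5]; simp
  let g₀ : ℝ ≃o ℝ := StrictMono.orderIsoOfSurjective F hmono hsurj
  have hg₀ : ∀ x, g₀ x = F x := fun _ => rfl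
  have hPL : g₀ ∈ PLg := by
    intro x
    obtain ⟨δ, hδ, hfr⟩ := hfree x
    refine ⟨?_, ?_, fun hx => hloc x fun h => hx (coe_mem.1 (hB1 _ h))⟩
    · obtain ⟨s, hs, c, hc, h⟩ := affine_of_local (F := F) (show x < x + δ by linarith)
        fun y hy => hloc y (hfr y (ne_of_gt hy.1) (by
          rw [abs_lt]; constructor <;> linarith [hy.1, hy.2]))
      have hcl : EqOn F (fun y => s * y + c) (closure (Ioo x (x + δ))) :=
        EqOn.closure h hF (by fun_prop)
      rw [closure_Ioo (by linarith)] at hcl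
      refine ⟨s, hs, c, hc, ?_⟩
      filter_upwards [Icc_mem_nhdsGE (show x < x + δ by linarith)] with y hy
      exact hcl hy
    · obtain ⟨s, hs, c, hc, h⟩ := affine_of_local (F := F) (show x - δ < x by linarith)
        fun y hy => hloc y (hfr y (ne_of_lt hy.2) (by
          rw [abs_lt]; constructor <;> linarith [hy.1, hy.2]))
      have hcl : EqOn F (fun y => s * y + c) (closure (Ioo (x - δ) x)) :=
        EqOn.closure h hF (by fun_prop)
      rw [closure_Ioo (by linarith)] at hcl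
      refine ⟨s, hs, c, hc, ?_⟩
      filter_upwards [Icc_mem_nhdsLE (show x - δ < x by linarith)] with y hy
      exact hcl hy
  exact ⟨⟨g₀, hPL⟩, hadd, fun x => (hFl x).symm⟩

/-- **Every action of `T(2,3)` on the circle by `C¹` diffeomorphisms is trivial.** -/
theorem result : ∀ (ρ : T23 →* Diff1) (g : T23), ρ g = 1 := by
  classical
  intro ρ
  choose D hD1 hD2 using fun (g : P) (hg : g ∈ TT) => exists_desc hg
  let S : ∀ g : P, g ∈ TT → T23 := fun g hg => ⟨D g hg, hD2 g hg⟩
  have huniq : ∀ (a b : T23), (∀ x : ℝ, (a : UnitAddCircle ≃ₜ UnitAddCircle) x =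
      (b : UnitAddCircle ≃ₜ UnitAddCircle) x) → a = b := by
    intro a b h
    apply Subtype.ext
    apply Homeomorph.ext
    intro p
    obtain ⟨x, rfl⟩ := coe_surj p
    exact h x
  have hmul : ∀ g hg h hh, S (g * h) (TT.mul_mem hg hh) = S g hg * S h hh := by
    intro g hg h hh
    apply huniq
    intro x
    show D (g * h) _ x = D g hg (D h hh x)
    rw [hD1, hD1, hD1, P_mul]
  have hone : S 1 TT.one_mem = 1 := by
    apply huniq
    intro x
    show D 1 _ x = x
    rw [hD1, P_one]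
  have hT : S T T_mem = 1 := by
    apply huniq
    intro x
    show D T _ x = x
    rw [hD1, T_apply, coe_eq]
    exact ⟨1, by simp⟩
  let R : P → Circle → Circle := fun g =>
    if h : g ∈ TT then ((ρ (S g h) : Circle ≃ₜ Circle) : Circle → Circle) else fun z => z
  have hR : ∀ g (hg : g ∈ TT) z, R g z = (ρ (S g hg) : Circle ≃ₜ Circle) z := by
    intro g hg z
    show (if h : g ∈ TT then ((ρ (S g h) : Circle ≃ₜ Circle) : Circle → Circle)
      else fun z => z) z = _
    rw [dif_pos hg]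
  have hRf : ∀ g (hg : g ∈ TT), R g = ((ρ (S g hg) : Circle ≃ₜ Circle) : Circle → Circle) :=
    fun g hg => funext (hR g hg)
  have A : Act R := by
    refine ⟨?_, ?_, ?_, ?_⟩
    · intro g hg h hh z
      rw [hR _ (TT.mul_mem hg hh), hR g hg, hR h hh, hmul g hg h hh, map_mul]
      rfl
    · intro z
      rw [hR _ TT.one_mem, hone, map_one]
      rfl
    · intro z
      rw [hR _ T_mem, hT, map_one]
      rfl
    · intro g hg
      rw [hRf g hg]
      exact (ρ (S g hg)).2.1
  intro f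
  obtain ⟨g, hg, hfg⟩ := exists_asc f.2
  have hf : f = S g hg := by
    apply huniq
    intro x
    show (f : UnitAddCircle ≃ₜ UnitAddCircle) x = D g hg x
    rw [hfg, hD1]
  apply Subtype.ext
  apply Homeomorph.ext
  intro z
  rw [hf, ← hR g hg, A.triv hg]
  rfl

end Pool.Agent.Results.MP_9d59aa_al.C1Trivial
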